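import Mathlib

/-!
# Closed curves: lifts of injective maps
-/

set_option autoImplicit false

open Filter Set Topology

namespace Pool.Agent.X183.PC

variable {N : Type*} [TopologicalSpace N] [T2Space N] {e : ℝ → N} {T : ℝ}

/-- near points of the closed curve have near parameters -/
theorem near_param (hec : Continuous e) (hT : 0 < T)
    (he : ∀ s t, e s = e t ↔ ∃ k : ℤ, s - t = k * T) (t₀ : ℝ) {η : ℝ} (hη : 0 < η) :
    ∃ W ∈ 𝓝 (e t₀), ∀ s, e s ∈ W → ∃ k : ℤ, |s - t₀ - k * T| < η := by
  set K : Set ℝ := {s | t₀ ≤ s ∧ s ≤ t₀ + T ∧ η ≤ s - t₀ ∧ η ≤ t₀ + T - s} with hK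
  have hKc : IsCompact K := by
    have : K = Icc (max t₀ (t₀ + η)) (min (t₀ + T) (t₀ + T - η)) := by
      ext s
      simp only [hK, mem_ofPred_eq, mem_Icc, max_le_iff, le_min_iff]
      constructor
      · rintro ⟨h1, h2, h3, h4⟩
        exact ⟨⟨h1, by linarith⟩, h2, by linarith⟩
      · rintro ⟨⟨h1, h3⟩, h2, h4⟩
        exact ⟨h1, h2, by linarith, by linarith⟩
    rw [this]
    exact isCompact_Icc
  have hnot : e t₀ ∉ e '' K := by
    rintro ⟨s, hs, hst⟩
    obtain ⟨k, hk⟩ := (he s t₀).1 hst
    obtain ⟨h1, h2, h3, h4⟩ := hs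
    have h5 : (0 : ℝ) < k := by
      by_contra h
      push Not at h
      nlinarith
    have h6 : (k : ℝ) < 1 := by
      by_contra h
      push Not at h
      nlinarith
    have h7 : (0 : ℤ) < k := by exact_mod_cast h5
    have h8 : k < (1 : ℤ) := by exact_mod_cast h6
    omega
  refine ⟨(e '' K)ᶜ, (hKc.image hec).isClosed.isOpen_compl.mem_nhds hnot, fun s hs => ?_⟩
  set k : ℤ := ⌊(s - t₀) / T⌋ with hk
  have h1 : (k : ℝ) * T ≤ s - t₀ := by
    have := Int.floor_le ((s - t₀) / T)
    rwa [le_div_iff₀ hT] at this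
  have h2 : s - t₀ < (k + 1) * T := by
    have := Int.lt_floor_add_one ((s - t₀) / T)
    rwa [div_lt_iff₀ hT] at this
  have h3 : e (s - k * T) = e s := (he _ _).2 ⟨-k, by push_cast; ring⟩
  have h4 : s - k * T ∉ K := fun h => hs ⟨_, h, h3⟩
  by_cases h5 : s - t₀ - k * T < η
  · exact ⟨k, by rw [abs_of_nonneg (by linarith)]; exact h5⟩
  · push Not at h5
    refine ⟨k + 1, ?_⟩
    push_cast
    rw [abs_of_neg (by linarith)]
    by_contra h6
    push Not at h6
    exact h4 ⟨by linarith, by linarith, by linarith, by linarith⟩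

/-- **Lifts.** -/
theorem exists_lift (hec : Continuous e) (hT : 0 < T)
    (he : ∀ s t, e s = e t ↔ ∃ k : ℤ, s - t = k * T) {H : N → N} (hH : Continuous H)
    (hm : ∀ s, ∃ t, H (e s) = e t) : ∃ g : ℝ → ℝ, Continuous g ∧ ∀ t, H (e t) = e (g t) := by
  have : Fact (0 < T) := ⟨hT⟩
  have hper : Function.Periodic e T := fun t => (he _ _).2 ⟨1, by push_cast; ring⟩
  have hLc : Continuous (hper.lift : AddCircle T → N) :=
    continuous_coinduced_dom.mpr hec
  have hLi : Function.Injective (hper.lift : AddCircle T → N) := by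
    intro a b
    induction a using QuotientAddGroup.induction_on with | H s => ?_
    induction b using QuotientAddGroup.induction_on with | H t => ?_
    intro hst
    have h1 : e s = e t := hst
    obtain ⟨k, hk⟩ := (he _ _).1 h1
    have h2 : (((s - t : ℝ)) : AddCircle T) = 0 :=
      AddCircle.coe_eq_zero_iff T |>.2 ⟨k, by rw [hk, zsmul_eq_mul]⟩
    rw [AddCircle.coe_sub, sub_eq_zero] at h2
    exact h2
  have hemb : IsClosedEmbedding (hper.lift : AddCircle T → N) :=
    hLc.isClosedEmbedding hLi
  choose τ hτ using hm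
  set u : ℝ → AddCircle T := fun t => (τ t : AddCircle T) with hu
  have hul : ∀ t, hper.lift (u t) = H (e t) := fun t => (hτ t).symm
  have huc : Continuous u := by
    rw [hemb.isInducing.continuous_iff]
    have : (hper.lift : AddCircle T → N) ∘ u = fun t => H (e t) := funext hul
    rw [this]
    exact hH.comp hec
  obtain ⟨g, ⟨-, hg⟩, -⟩ := (AddCircle.isCoveringMap_coe T).existsUnique_continuousMap_lifts
    (⟨u, huc⟩ : C(ℝ, AddCircle T)) 0 (τ 0) rfl
  refine ⟨g, g.continuous, fun t => ?_⟩
  have h1 : ((g t : ℝ) : AddCircle T) = u t := congrFun hg t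
  rw [← hul t, ← h1]
  rfl

/-- **Lifts of injective maps.** -/
theorem exists_mono_lift (hec : Continuous e) (hT : 0 < T)
    (he : ∀ s t, e s = e t ↔ ∃ k : ℤ, s - t = k * T) {H : N → N} (hH : Continuous H)
    (hm : ∀ s, ∃ t, H (e s) = e t) (hinj : ∀ s t, H (e s) = H (e t) → e s = e t) :
    ∃ g : ℝ → ℝ, Continuous g ∧ (∀ t, H (e t) = e (g t)) ∧
      ((StrictMono g ∧ ∀ t, g (t + T) = g t + T) ∨ (StrictAnti g ∧ ∀ t, g (t + T) = g t - T)) := by
  obtain ⟨g, hgc, hg⟩ := exists_lift hec hT he hH hm
  -- injectivity modulo `T`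
  have hmod : ∀ s t, (∃ k : ℤ, g s - g t = k * T) → ∃ k : ℤ, s - t = k * T := fun s t h =>
    (he _ _).1 (hinj s t (by rw [hg, hg]; exact (he _ _).2 h))
  have hsmall : ∀ s t, |s - t| < T → (∃ k : ℤ, g s - g t = k * T) → s = t := by
    intro s t hst h
    obtain ⟨k, hk⟩ := hmod s t h
    rw [hk, abs_mul, abs_of_pos hT] at hst
    have h1 : |(k : ℝ)| < 1 := by
      by_contra h
      push Not at h
      nlinarith
    have h2 : |k| < 1 := by exact_mod_cast h1
    have h3 : k = 0 := Int.abs_lt_one_iff.1 h2
    rw [h3] at hk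
    simp at hk
    linarith
  -- `g` is injective
  have hstep : ∀ t, ∃ d : ℤ, g (t + T) - g t = d * T := fun t =>
    (he _ _).1 (by
      rw [← hg, ← hg]
      congr 1
      exact (he _ _).2 ⟨1, by push_cast; ring⟩)
  have hne : ∀ t, g (t + T) ≠ g t := by
    intro t h
    -- the value at `t + T/2`
    have h1 : g (t + T / 2) ≠ g t := fun h1 => by
      have := hsmall (t + T / 2) t (by rw [abs_of_pos (by linarith)]; linarith)
        ⟨0, by rw [h1]; simp⟩
      linarith
    set v : ℝ := (g t + g (t + T / 2)) / 2 with hv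
    have hI1 : v ∈ g '' Icc t (t + T / 2) := by
      rcases lt_or_gt_of_ne h1 with h2 | h2
      · exact intermediate_value_Icc' (by linarith) hgc.continuousOn ⟨by linarith, by linarith⟩
      · exact intermediate_value_Icc (by linarith) hgc.continuousOn ⟨by linarith, by linarith⟩
    have hI2 : v ∈ g '' Icc (t + T / 2) (t + T) := by
      rcases lt_or_gt_of_ne h1 with h2 | h2
      · exact intermediate_value_Icc (by linarith) hgc.continuousOn
          ⟨by linarith, by rw [h]; linarith⟩
      · exact intermediate_value_Icc' (by linarith) hgc.continuousOn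
          ⟨by rw [h]; linarith, by linarith⟩
    obtain ⟨a, ⟨ha1, ha2⟩, ha⟩ := hI1
    obtain ⟨b, ⟨hb1, hb2⟩, hb⟩ := hI2
    have hat : a ≠ t := fun h3 => by
      rw [h3] at ha
      exact h1 (by linarith)
    have hah : a ≠ t + T / 2 := fun h3 => by
      rw [h3] at ha
      exact h1 (by linarith)
    have ha1' : t < a := lt_of_le_of_ne ha1 (Ne.symm hat)
    have ha2' : a < t + T / 2 := lt_of_le_of_ne ha2 hah
    have := hsmall b a (by rw [abs_of_pos (by linarith)]; linarith) ⟨0, by rw [ha, hb]; simp⟩
    linarith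
  have hinjg : Function.Injective g := by
    -- the increment is a constant `d T` with `d ≠ 0`
    have hcont : Continuous fun t => (g (t + T) - g t) / T :=
      ((hgc.comp (continuous_id.add continuous_const)).sub hgc).div_const T
    have hint : ∀ t, ∃ d : ℤ, (g (t + T) - g t) / T = d := fun t => by
      obtain ⟨d, hd⟩ := hstep t
      exact ⟨d, by rw [hd]; field_simp⟩
    choose d hd using hint
    have hdc : Continuous d := by
      have h1 : Continuous fun t => ((d t : ℤ) : ℝ) := by
        have : (fun t => ((d t : ℤ) : ℝ)) = fun t => (g (t + T) - g t) / T := by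
          funext t
          rw [hd]
        rw [this]
        exact hcont
      exact Int.isClosedEmbedding_coe_real.isInducing.continuous_iff.2 h1
    have hdconst : ∀ t, d t = d 0 := fun t =>
      (isPreconnected_univ.image d hdc.continuousOn).subsingleton ⟨t, mem_univ _, rfl⟩
        ⟨0, mem_univ _, rfl⟩
    have hd0 : d 0 ≠ 0 := fun h => by
      have := hd 0
      rw [h] at this
      rw [div_eq_iff hT.ne'] at this
      simp at this
      exact hne 0 (by simp; linarith)
    have hT' : ∀ t, g (t + T) = g t + d 0 * T := fun t => by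
      have := hd t
      rw [hdconst t, div_eq_iff hT.ne'] at this
      linarith
    have hk : ∀ (k : ℤ) (t : ℝ), g (t + k * T) = g t + k * (d 0 * T) := by
      have hnat : ∀ (m : ℕ) (t : ℝ), g (t + m * T) = g t + m * (d 0 * T) := by
        intro m
        induction m with
        | zero => intro t; simp
        | succ m ih =>
          intro t
          have h1 : t + ((m + 1 : ℕ) : ℝ) * T = (t + m * T) + T := by push_cast; ring
          rw [h1, hT', ih]
          push_cast
          ring
      intro k t
      obtain ⟨m, rfl | rfl⟩ := k.eq_nat_or_neg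
      · exact_mod_cast hnat m t
      · have := hnat m (t + ((-(m : ℤ) : ℤ) : ℝ) * T)
        have h2 : t + ((-(m : ℤ) : ℤ) : ℝ) * T + m * T = t := by push_cast; ring
        rw [h2] at this
        push_cast at this ⊢
        linarith
    intro s t hst
    obtain ⟨k, hkk⟩ := hmod s t ⟨0, by rw [hst]; simp⟩
    have h1 : s = t + k * T := by linarith
    rw [h1, hk] at hst
    have h2 : (k : ℝ) * (d 0 * T) = 0 := by linarith
    rcases mul_eq_zero.1 h2 with h3 | h3
    · rw [h1, h3]
      simp
    · rcases mul_eq_zero.1 h3 with h4 | h4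
      · exact absurd (by exact_mod_cast h4) hd0
      · exact absurd h4 hT.ne'
  refine ⟨g, hgc, hg, ?_⟩
  rcases hgc.strictMono_of_inj hinjg with hmon | hanti
  · refine Or.inl ⟨hmon, fun t => ?_⟩
    obtain ⟨k, hk⟩ := hstep t
    have h0 : 0 < (k : ℝ) * T := by
      rw [← hk]
      have := hmon (by linarith : t < t + T)
      linarith
    have hk1 : (1 : ℝ) ≤ k := by
      have : (0 : ℝ) < k := by
        by_contra h
        push Not at h
        nlinarith
      have h1 : (0 : ℤ) < k := by exact_mod_cast this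
      exact_mod_cast (show (1 : ℤ) ≤ k by omega)
    rcases hk1.eq_or_lt with h1 | h1
    · rw [← h1] at hk
      linarith
    · exfalso
      have h2 : g t + T ∈ Icc (g t) (g (t + T)) := ⟨by linarith, by nlinarith⟩
      obtain ⟨s, hs, hgs⟩ := intermediate_value_Icc (by linarith : t ≤ t + T) hgc.continuousOn h2
      have hs2 : s ≠ t + T := fun h3 => by
        rw [h3] at hgs
        nlinarith
      have hs3 : s < t + T := lt_of_le_of_ne hs.2 hs2
      have h4 := hsmall s t (by rw [abs_of_nonneg (by linarith [hs.1])]; linarith)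
        ⟨1, by rw [hgs]; push_cast; ring⟩
      rw [h4] at hgs
      linarith
  · refine Or.inr ⟨hanti, fun t => ?_⟩
    obtain ⟨k, hk⟩ := hstep t
    have h0 : (k : ℝ) * T < 0 := by
      rw [← hk]
      have := hanti (by linarith : t < t + T)
      linarith
    have hk1 : (k : ℝ) ≤ -1 := by
      have : (k : ℝ) < 0 := by
        by_contra h
        push Not at h
        nlinarith
      have h1 : k < (0 : ℤ) := by exact_mod_cast this
      exact_mod_cast (show k ≤ (-1 : ℤ) by omega)
    rcases hk1.eq_or_lt with h1 | h1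
    · rw [h1] at hk
      linarith
    · exfalso
      have h2 : g t - T ∈ Icc (g (t + T)) (g t) := ⟨by nlinarith, by linarith⟩
      obtain ⟨s, hs, hgs⟩ := intermediate_value_Icc' (by linarith : t ≤ t + T) hgc.continuousOn h2
      have hs2 : s ≠ t + T := fun h3 => by
        rw [h3] at hgs
        nlinarith
      have hs3 : s < t + T := lt_of_le_of_ne hs.2 hs2
      have h4 := hsmall s t (by rw [abs_of_nonneg (by linarith [hs.1])]; linarith)
        ⟨-1, by rw [hgs]; push_cast; ring⟩
      rw [h4] at hgs
      linarith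

end Pool.Agent.X183.PC
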