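import Pool.Agent.H66.L.S8.TH290.CL.Flow
import Pool.Agent.H66.L.S8.Y504.CO.Gen

/-!
# Orbits of smooth flows
-/

set_option autoImplicit false
set_option linter.unusedSectionVars false

open scoped Manifold ContDiff Topology
open Filter Set Metric

universe u

namespace Pool.Agent.X183.PC

open Pool.Agent.H718R2.G Pool.Agent.TH290.CL

section top

variable {N : Type*} [TopologicalSpace N] [T2Space N] {ψ : ℝ → N → N}

/-- the periods of a nonconstant periodic orbit -/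
theorem exists_period (hc : ∀ y, Continuous fun t => ψ t y) (h0 : ∀ y, ψ 0 y = y)
    (ha : ∀ s t y, ψ (s + t) y = ψ s (ψ t y)) {x : N} {T₀ : ℝ} (hT₀ : T₀ ≠ 0)
    (hp : ψ T₀ x = x) (hn : ∃ t, ψ t x ≠ x) :
    ∃ T : ℝ, 0 < T ∧ ∀ s t, ψ s x = ψ t x ↔ ∃ k : ℤ, s - t = k * T := by
  let P : AddSubgroup ℝ :=
    { carrier := {t | ψ t x = x}
      zero_mem' := h0 x
      add_mem' := fun {s t} hs ht => by
        show ψ (s + t) x = x
        rw [ha, show ψ t x = x from ht, show ψ s x = x from hs]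
      neg_mem' := fun {t} ht => by
        show ψ (-t) x = x
        have h1 : ψ (-t) (ψ t x) = x := by rw [← ha, neg_add_cancel, h0]
        rwa [show ψ t x = x from ht] at h1 }
  have hPc : IsClosed (P : Set ℝ) := isClosed_eq (hc x) continuous_const
  have hmem : ∀ t, t ∈ P ↔ ψ t x = x := fun t => Iff.rfl
  rcases P.dense_or_cyclic with hd | ⟨a, hPa⟩
  · exfalso
    obtain ⟨t, ht⟩ := hn
    apply ht
    have : t ∈ closure (P : Set ℝ) := hd t
    rw [hPc.closure_eq] at this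
    exact this
  · have hz : ∀ t, t ∈ P ↔ ∃ k : ℤ, t = k * a := fun t => by
      rw [hPa, AddSubgroup.mem_closure_singleton]
      simp only [zsmul_eq_mul]
      exact exists_congr fun k => eq_comm
    have ha0 : a ≠ 0 := by
      rintro rfl
      obtain ⟨k, hk⟩ := (hz T₀).1 hp
      rw [mul_zero] at hk
      exact hT₀ hk
    have hst : ∀ s t, ψ s x = ψ t x ↔ s - t ∈ P := by
      intro s t
      rw [hmem]
      constructor
      · intro h
        have h1 : ψ (s - t) x = ψ (-t) (ψ s x) := by rw [← ha]; congr 1; ring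
        rw [h1, h, ← ha, neg_add_cancel, h0]
      · intro h
        have h1 : ψ s x = ψ t (ψ (s - t) x) := by rw [← ha]; congr 1; ring
        rw [h1, h]
    rcases lt_or_gt_of_ne ha0 with h | h
    · refine ⟨-a, by linarith, fun s t => ?_⟩
      rw [hst, hz]
      constructor
      · rintro ⟨k, hk⟩
        exact ⟨-k, by rw [hk]; push_cast; ring⟩
      · rintro ⟨k, hk⟩
        exact ⟨-k, by rw [hk]; push_cast; ring⟩
    · exact ⟨a, h, fun s t => by rw [hst, hz]⟩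

end top

variable {n : ℕ} {N : Type u} [TopologicalSpace N] [T2Space N] [CompactSpace N]
  [ChartedSpace (V n) N] [IsManifold (𝓡 n) ∞ N] {ψ : ℝ → N → N} (hψ : IsFlow n N ψ)

include hψ in
theorem flow_cont : Continuous fun q : ℝ × N => ψ q.1 q.2 := hψ.smooth.continuous

include hψ in
theorem orb_cont (x : N) : Continuous fun t => ψ t x :=
  (flow_cont hψ).comp (Continuous.prodMk_left x)

include hψ in
theorem time_smooth (t : ℝ) : ContMDiff (𝓡 n) (𝓡 n) ∞ (ψ t) :=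
  hψ.smooth.comp (contMDiff_const.prodMk contMDiff_id)

include hψ in
theorem orb_smooth (x : N) : ContMDiff 𝓘(ℝ, ℝ) (𝓡 n) ∞ (fun t => ψ t x) :=
  hψ.smooth.comp (contMDiff_id.prodMk contMDiff_const)

include hψ in
/-- the orbit in a chart -/
theorem chart_smooth {χ : OpenPartialHomeomorph N (V n)} (hχ : χ ∈ IsManifold.maximalAtlas (𝓡 n) ∞ N)
    {x : N} {s₁ : ℝ} (hs : ψ s₁ x ∈ χ.source) : ContDiffAt ℝ ∞ (fun s => χ (ψ s x)) s₁ := by
  rw [← contMDiffAt_iff_contDiffAt]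
  have h1 : ContMDiffAt (𝓡 n) (𝓡 n) ∞ χ (ψ s₁ x) :=
    (contMDiffOn_of_mem_maximalAtlas hχ).contMDiffAt (χ.open_source.mem_nhds hs)
  exact h1.comp s₁ (orb_smooth hψ x).contMDiffAt

include hψ in
/-- **Nonconstant orbits have nonzero velocity.** -/
theorem velocity_ne {χ : OpenPartialHomeomorph N (V n)} (hχ : χ ∈ IsManifold.maximalAtlas (𝓡 n) ∞ N)
    {x : N} {s₁ : ℝ} (hs : ψ s₁ x ∈ χ.source) {v : V n}
    (hv : HasDerivAt (fun s => χ (ψ s x)) v s₁) (hn : ∃ t, ψ t x ≠ x) : v ≠ 0 := by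
  rintro rfl
  obtain ⟨t₁, ht₁⟩ := hn
  apply ht₁
  -- all smooth functions are constant along the orbit
  have key : ∀ ρ : N → ℝ, ContMDiff (𝓡 n) 𝓘(ℝ, ℝ) ∞ ρ → ρ (ψ t₁ x) = ρ x := by
    intro ρ hρ
    have hsm := line_smooth hψ hρ x
    have hd : Differentiable ℝ fun t : ℝ => ρ (ψ t x) := hsm.differentiable (by simp)
    have hzero : ∀ t, deriv (fun t : ℝ => ρ (ψ t x)) t = 0 := by
      intro t
      -- shift
      set L : V n → ℝ := fun w => ρ (ψ (t - s₁) (χ.symm w)) with hL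
      have hLd : DifferentiableAt ℝ L (χ (ψ s₁ x)) := by
        have h2 : ContMDiffAt (𝓡 n) (𝓡 n) ∞ χ.symm (χ (ψ s₁ x)) :=
          (contMDiffOn_symm_of_mem_maximalAtlas hχ).contMDiffAt
            (χ.open_target.mem_nhds (χ.map_source hs))
        have h3 : ContMDiffAt (𝓡 n) 𝓘(ℝ, ℝ) ∞ L (χ (ψ s₁ x)) :=
          (hρ.comp (time_smooth hψ (t - s₁))).contMDiffAt.comp _ h2
        exact (contMDiffAt_iff_contDiffAt.1 h3).differentiableAt (by simp)
      have h4 : HasDerivAt (fun s => L (χ (ψ s x))) (fderiv ℝ L (χ (ψ s₁ x)) 0) s₁ :=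
        HasFDerivAt.comp_hasDerivAt (f := fun s => χ (ψ s x)) (l := L) s₁ hLd.hasFDerivAt hv
      rw [map_zero] at h4
      have h5 : (fun s => ρ (ψ (s + (t - s₁)) x)) =ᶠ[𝓝 s₁] fun s => L (χ (ψ s x)) := by
        filter_upwards [(orb_cont hψ x).continuousAt.preimage_mem_nhds
          (χ.open_source.mem_nhds hs)] with s hs'
        show ρ (ψ (s + (t - s₁)) x) = ρ (ψ (t - s₁) (χ.symm (χ (ψ s x))))
        rw [χ.left_inv hs', add_comm, hψ.add]
      have h6 : HasDerivAt (fun s => ρ (ψ (s + (t - s₁)) x)) 0 s₁ := h4.congr_of_eventuallyEq h5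
      have h7 : HasDerivAt (fun s => ρ (ψ s x)) (deriv (fun t : ℝ => ρ (ψ t x)) t) (s₁ + (t - s₁)) := by
        rw [add_sub_cancel]
        exact (hd t).hasDerivAt
      have h8 := h7.comp_add_const s₁ (t - s₁)
      exact h8.unique h6
    have := is_const_of_deriv_eq_zero hd hzero t₁ 0
    simpa [hψ.zero] using this
  -- smooth functions separate points
  by_contra hne
  have hdis : Disjoint ({x} : Set N) {ψ t₁ x} := by
    rw [Set.disjoint_singleton]
    exact fun h => hne h.symm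
  obtain ⟨f, hf0, hf1, -⟩ := exists_contMDiffMap_zero_one_of_isClosed (n := ⊤) (𝓡 n)
    (isClosed_singleton (x := x)) (isClosed_singleton (x := ψ t₁ x)) hdis
  have h1 := key f f.contMDiff
  have h2 : f x = 0 := hf0 (mem_singleton x)
  have h3 : f (ψ t₁ x) = 1 := hf1 (mem_singleton _)
  rw [h2, h3] at h1
  exact one_ne_zero h1

/-- If `c ∘ φ` is differentiable, `c` is an immersion and `φ` is continuous, then `φ` is
differentiable. -/
theorem diff_of_comp {c : ℝ → V n} {φ : ℝ → ℝ} {s₁ : ℝ} {v w : V n}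
    (hc : ContDiffAt ℝ ∞ c s₁) (hv : HasDerivAt c v s₁) (hv0 : v ≠ 0)
    (hφ : ContinuousAt φ s₁) (hφ1 : φ s₁ = s₁) (hw : HasDerivAt (fun s => c (φ s)) w s₁) :
    ∃ l : ℝ, HasDerivAt φ l s₁ ∧ w = l • v := by
  have hn : ‖v‖ ^ 2 ≠ 0 := by positivity
  set Λ : V n →L[ℝ] ℝ := (1 / ‖v‖ ^ 2) • innerSL ℝ v with hΛ
  have hΛv : Λ v = 1 := by
    simp only [hΛ, smul_apply, innerSL_apply_apply, smul_eq_mul,
      real_inner_self_eq_norm_sq]
    field_simp
  have h1 : HasStrictDerivAt (fun s => Λ (c s)) 1 s₁ := by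
    have h2 : HasStrictDerivAt c v s₁ := by
      have := hc.hasStrictDerivAt (by simp)
      rwa [hv.deriv] at this
    have h3 := HasStrictFDerivAt.comp_hasStrictDerivAt (f := c) (l := Λ) s₁
      Λ.hasStrictFDerivAt h2
    rwa [hΛv] at h3
  obtain ⟨θ, hθ1, hθ2⟩ : ∃ θ : ℝ → ℝ, (∀ᶠ s in 𝓝 s₁, θ (Λ (c s)) = s) ∧
      HasStrictDerivAt θ (1 : ℝ)⁻¹ (Λ (c s₁)) :=
    ⟨_, h1.eventually_left_inverse one_ne_zero, h1.to_localInverse one_ne_zero⟩
  have hφev : ∀ᶠ s in 𝓝 s₁, θ (Λ (c (φ s))) = φ s := by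
    have : Tendsto φ (𝓝 s₁) (𝓝 s₁) := by
      have h := hφ.tendsto
      rwa [hφ1] at h
    exact this.eventually hθ1
  have h4 : HasDerivAt (fun s => Λ (c (φ s))) (Λ w) s₁ :=
    HasFDerivAt.comp_hasDerivAt (f := fun s => c (φ s)) (l := Λ) s₁ Λ.hasFDerivAt hw
  have h5 : HasDerivAt (fun s => θ (Λ (c (φ s)))) ((1 : ℝ)⁻¹ * Λ w) s₁ := by
    have h6 : HasDerivAt θ (1 : ℝ)⁻¹ (Λ (c (φ s₁))) := by
      rw [hφ1]
      exact hθ2.hasDerivAt
    exact HasDerivAt.comp (h₂ := θ) (h := fun s => Λ (c (φ s))) s₁ h6 h4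
  rw [inv_one, one_mul] at h5
  have h7 : HasDerivAt φ (Λ w) s₁ := h5.congr_of_eventuallyEq (hφev.mono fun s hs => hs.symm)
  refine ⟨Λ w, h7, ?_⟩
  have h8 : HasDerivAt (fun s => c (φ s)) (Λ w • v) s₁ := by
    have h9 : HasDerivAt c v (φ s₁) := by rwa [hφ1]
    exact HasDerivAt.scomp (g₁ := c) (h := φ) s₁ h9 h7
  exact hw.unique h8

/-- A semistable fixed point has derivative one. -/
theorem one_of_semistable {φ : ℝ → ℝ} {s₁ l : ℝ} (hφ1 : φ s₁ = s₁) (hd : HasDerivAt φ l s₁)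
    (hs : (∀ s, φ s ≤ s) ∨ ∀ s, s ≤ φ s) : l = 1 := by
  have h1 : HasDerivAt (fun s => φ s - s) (l - 1) s₁ := hd.sub (hasDerivAt_id s₁)
  have h2 : IsLocalExtr (fun s => φ s - s) s₁ := by
    rcases hs with h | h
    · refine Or.inr (Eventually.of_forall fun s => ?_)
      show φ s - s ≤ φ s₁ - s₁
      rw [hφ1]
      linarith [h s]
    · refine Or.inl (Eventually.of_forall fun s => ?_)
      show φ s₁ - s₁ ≤ φ s - s
      rw [hφ1]
      linarith [h s]
  have := h2.hasDerivAt_eq_zero h1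
  linarith

include hψ in
/-- **A semistable periodic point on a smooth curve is not hyperbolic.** -/
theorem not_hyp {r : ℕ∞} (G : DiffM n N r) {x : N} (hn : ∃ t, ψ t x ≠ x) {k : ℕ} (hk : 1 ≤ k)
    {φ : ℝ → ℝ} (hφ : Continuous φ) (hG : ∀ s, G^[k] (ψ s x) = ψ (φ s) x) {s₁ : ℝ}
    (hφ1 : φ s₁ = s₁) (hs : (∀ s, φ s ≤ s) ∨ ∀ s, s ≤ φ s) :
    ¬ Pool.Agent.Y504.CO.IsHyperbolicPer n G (ψ s₁ x) := by
  intro hyp
  set p : N := ψ s₁ x with hp
  have hper : G^[k] p = p := by rw [hp, hG, hφ1]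
  set χ := chartAt (V n) p with hχd
  have hχ : χ ∈ IsManifold.maximalAtlas (𝓡 n) ∞ N := IsManifold.chart_mem_maximalAtlas p
  have hpχ : p ∈ χ.source := mem_chart_source _ p
  obtain ⟨D, hD, hD1⟩ := hyp.2 k hk hper χ hχ hpχ
  have hc := chart_smooth hψ hχ (x := x) (s₁ := s₁) hpχ
  obtain ⟨v, hv⟩ : ∃ v, HasDerivAt (fun s => χ (ψ s x)) v s₁ :=
    ⟨_, (hc.differentiableAt (by simp)).hasDerivAt⟩
  have hv0 : v ≠ 0 := velocity_ne hψ hχ hpχ hv hn
  have h1 : HasDerivAt (fun s => χ (G^[k] (χ.symm (χ (ψ s x))))) (D v) s₁ :=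
    HasFDerivAt.comp_hasDerivAt (f := fun s => χ (ψ s x)) (l := fun w => χ (G^[k] (χ.symm w)))
      s₁ hD hv
  have h2 : HasDerivAt (fun s => χ (ψ (φ s) x)) (D v) s₁ := by
    apply h1.congr_of_eventuallyEq
    filter_upwards [(orb_cont hψ x).continuousAt.preimage_mem_nhds
      (χ.open_source.mem_nhds hpχ)] with s hs'
    rw [χ.left_inv hs', hG]
  obtain ⟨l, hl, hDl⟩ := diff_of_comp (c := fun s => χ (ψ s x)) hc hv hv0 hφ.continuousAt hφ1 h2
  have hl1 := one_of_semistable hφ1 hl hs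
  rw [hl1, one_smul] at hDl
  have hev : Module.End.HasEigenvalue (D : V n →ₗ[ℝ] V n) 1 := by
    apply Module.End.hasEigenvalue_of_hasEigenvector (x := v)
    refine ⟨?_, hv0⟩
    rw [Module.End.mem_eigenspace_iff, one_smul]
    exact hDl
  have hroot : (LinearMap.charpoly (D : V n →ₗ[ℝ] V n)).IsRoot 1 :=
    (Module.End.hasEigenvalue_iff_isRoot_charpoly _ _).1 hev
  have h3 : ((LinearMap.charpoly (D : V n →ₗ[ℝ] V n)).map (algebraMap ℝ ℂ)).IsRoot (1 : ℂ) := by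
    have := hroot.map (f := algebraMap ℝ ℂ)
    rwa [map_one] at this
  exact hD1 1 h3 (by simp)

end Pool.Agent.X183.PC
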