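import Pool.Agent.H66.L.T64922ed1.X183.PC.Circ
import Pool.Agent.H66.L.T64922ed1.X183.PC.Lift
import Pool.Agent.H66.L.T64922ed1.X183.PC.Orb
import Pool.Agent.H66.L.S8.TH290.CL.Rec
import Pool.Agent.H66.L.S8.TH80.CLX.Fam

/-!
# `Ω`-stable diffeomorphisms and periodic closed curves
-/

set_option autoImplicit false
set_option linter.unusedSectionVars false

open scoped Manifold ContDiff Topology
open Filter Set Metric

universe u

namespace Pool.Agent.X183.PC

open Pool.Agent.H718R2.G Pool.Agent.TH290.CL Pool.Agent.TH80.CLX Pool.Agent.TH80.OMS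
open Pool.Agent.Y504.CO (Rec IsHyperbolicPer)

/-- `C` is a smooth closed curve: a nonconstant periodic orbit of a smooth flow on `N`. -/
def IsClosedCurve (n : ℕ) (N : Type u) [TopologicalSpace N] [ChartedSpace (V n) N] (C : Set N) :
    Prop :=
  ∃ ψ : ℝ → N → N, IsFlow n N ψ ∧ ∃ x : N, (∃ T : ℝ, 0 < T ∧ ψ T x = x) ∧ (∃ t, ψ t x ≠ x) ∧
    C = range fun t => ψ t x

/-- `C` is periodic under `F`: `F^m(C) ⊆ C` for some `m ≥ 1`, and `C` does not meet
`F^i(C)`, `1 ≤ i < m`. -/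
def IsPerSet {N : Type*} (F : N → N) (C : Set N) : Prop :=
  ∃ m : ℕ, 1 ≤ m ∧ (∀ y ∈ C, F^[m] y ∈ C) ∧ ∀ i, 1 ≤ i → i < m → Disjoint (F^[i] '' C) C

variable {n : ℕ} {N : Type u} [TopologicalSpace N] [T2Space N] [CompactSpace N]
  [ChartedSpace (V n) N] [IsManifold (𝓡 n) ∞ N]

theorem omegaConj_symm {F G : N → N} (hF : Continuous F) (h : OmegaConj F G) : OmegaConj G F := by
  obtain ⟨e, he⟩ := h
  exact ⟨e.symm, Pool.Agent.TH80.OMS.conj_symm hF e he⟩

theorem omegaConj_trans {F G K : N → N} (h : OmegaConj F G) (h' : OmegaConj G K) :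
    OmegaConj F K := by
  obtain ⟨e, he⟩ := h
  obtain ⟨e', he'⟩ := h'
  exact ⟨e.trans e', fun x y hxy => he' (e x) (e y) (he x y hxy)⟩

/-- the perturbations -/
theorem perturb {r : ℕ∞} (hr : 1 ≤ r) (F : DiffM n N r) {ψ : ℝ → N → N} (hψ : IsFlow n N ψ)
    {ρ : N → ℝ} (hρ : ContMDiff (𝓡 n) 𝓘(ℝ, ℝ) ∞ ρ) (z : N) (U : Set (DiffM n N r))
    (hU : IsOpen[strongTop n N r] U) (hFU : F ∈ U) :
    ∃ κ : ℝ, 0 < κ ∧ ∀ ε : ℝ, |ε| < κ → ∃ G ∈ U, ∀ y, G y = F (ψ (ρ y * ε) y) := by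
  have hA : ContMDiff ((𝓡 1).prod (𝓡 n)) (𝓡 n) ∞ (fun p : V 1 × N => ψ (p.1 0) p.2) := by
    have h1 : ContMDiff ((𝓡 1).prod (𝓡 n)) (𝓘(ℝ, ℝ).prod (𝓡 n)) ∞
        (fun p : V 1 × N => ((p.1 0, p.2) : ℝ × N)) := by
      refine ContMDiff.prodMk ?_ contMDiff_snd
      have h2 : ContDiff ℝ ∞ (fun v : V 1 => v 0) := by fun_prop
      exact h2.contMDiff.comp contMDiff_fst
    exact hψ.smooth.comp h1
  obtain ⟨H, κ, hκ, hH0, hfam, hH⟩ := act_fam (A := fun (v : V 1) y => ψ (v 0) y) hA hρ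
    (fun y => hψ.zero y) (fun s t y => hψ.add _ _ y) r F
  obtain ⟨κ', hκ', hmem⟩ := fam_mem r hr H hfam z U hU (by rw [hH0]; exact hFU)
  refine ⟨min κ κ', lt_min hκ hκ', fun ε hε => ?_⟩
  have hn : ‖(EuclideanSpace.single (0 : Fin 1) ε : V 1)‖ = |ε| := by
    rw [PiLp.norm_single, Real.norm_eq_abs]
  refine ⟨H (EuclideanSpace.single (0 : Fin 1) ε), hmem _ (by
    rw [hn]
    exact hε.trans_le (min_le_right _ _)), fun y => ?_⟩
  rw [hH _ (by rw [hn]; exact hε.trans_le (min_le_left _ _))]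
  congr 1

/-- **Recurrent points on periodic closed curves are periodic.** -/
theorem curve_main {r : ℕ∞} (hr : 1 ≤ r) {F : DiffM n N r} (hF : OmegaStable n N r F) {C : Set N}
    (hC : IsClosedCurve n N C) (hP : IsPerSet F C) {x : N} (hxC : x ∈ C) (hx : x ∈ Rec F) :
    x ∈ Per F := by
  obtain ⟨ψ, hψ, x₀, ⟨T₀, hT₀, hT₀x⟩, hn, hCe⟩ := hC
  obtain ⟨m, hm, hCm, hdis⟩ := hP
  obtain ⟨T, hT, he⟩ := exists_period (orb_cont hψ) hψ.zero hψ.add hT₀.ne' hT₀x hn
  obtain ⟨t₀, ht₀⟩ : ∃ t₀, ψ t₀ x₀ = x := by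
    rw [hCe] at hxC
    exact hxC
  have hec : Continuous fun t => ψ t x₀ := orb_cont hψ x₀
  have hFc : ∀ i : ℕ, Continuous (F^[i]) := fun i => F.continuous.iterate i
  have heC : ∀ t, ψ t x₀ ∈ C := fun t => by
    rw [hCe]
    exact ⟨t, rfl⟩
  have hFi : ∀ i : ℕ, Function.Injective (F^[i]) := fun i => F.injective.iterate i
  obtain ⟨g, hgc, hg, hmono⟩ := exists_mono_lift (e := fun t => ψ t x₀) hec hT he (hFc m)
    (fun s => by
      have h1 := hCm _ (heC s)
      rw [hCe] at h1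
      obtain ⟨t, ht⟩ := h1
      exact ⟨t, ht.symm⟩) (fun s t h => hFi m h)
  have hgq : ∀ (q : ℕ) (t : ℝ), F^[m * q] (ψ t x₀) = ψ (g^[q] t) x₀ := by
    intro q
    induction q with
    | zero => intro t; rfl
    | succ q ih =>
      intro t
      rw [Nat.mul_succ, Function.iterate_add_apply, hg, ih, Function.iterate_succ_apply]
  -- returns along multiples
  have hret : ∀ Q : ℕ, 1 ≤ Q → ∀ η > 0, ∃ j : ℕ, 1 ≤ j ∧ ∃ k : ℤ,
      |g^[Q * j] t₀ - t₀ - k * T| < η := by
    intro Q hQ η hη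
    obtain ⟨W, hW, hWs⟩ := near_param (e := fun t => ψ t x₀) hec hT he t₀ hη
    rw [ht₀] at hW
    obtain ⟨M, -, hM1, ⟨j, hj⟩, hMW, -⟩ := blocks F F.continuous x hx W hW 0 (m * Q)
      (Nat.mul_pos hm hQ) 1 one_pos 0
    have hj1 : 1 ≤ j := by
      rcases Nat.eq_zero_or_pos j with h | h
      · rw [h, mul_zero] at hj
        omega
      · exact h
    refine ⟨j, hj1, hWs _ ?_⟩
    rw [← hgq, ht₀, ← mul_assoc, ← hj]
    exact hMW
  have hperx : ∀ (q : ℕ) (p : ℤ), 1 ≤ q → g^[q] t₀ = t₀ + p * T → x ∈ Per F := by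
    intro q p hq h
    refine ⟨m * q, Nat.mul_pos hm hq, ?_⟩
    rw [← ht₀, hgq, h]
    exact (he _ _).2 ⟨p, by ring⟩
  rcases hmono with ⟨hmon, hgT⟩ | ⟨hanti, hgT⟩
  · by_contra hxp
    have hno : ∀ q : ℕ, 1 ≤ q → ∀ (p : ℤ) (t : ℝ), g^[q] t ≠ t + p * T := by
      intro q hq p t h
      exact hxp (hperx q p hq (per_of_per hT hmon hgT h (hret q hq)))
    have hrec1 : ∀ η > 0, ∃ q : ℕ, 1 ≤ q ∧ ∃ p : ℤ, |g^[q] t₀ - t₀ - p * T| < η := by
      intro η hη
      obtain ⟨j, hj, k, hk⟩ := hret 1 le_rfl η hη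
      rw [one_mul] at hk
      exact ⟨j, hj, k, hk⟩
    -- the cut-off function
    obtain ⟨C0, hC0⟩ : ∃ C0 : Set N, C0 = ⋃ i ∈ Finset.Ico 1 m, F^[i] '' C := ⟨_, rfl⟩
    have hCc : IsCompact C := by
      have h1 : C = (fun t => ψ t x₀) '' Icc 0 T := by
        rw [hCe]
        ext y
        constructor
        · rintro ⟨t, rfl⟩
          refine ⟨t - ⌊t / T⌋ * T, ⟨?_, ?_⟩, ?_⟩
          · have := Int.floor_le (t / T)
            rw [le_div_iff₀ hT] at this
            linarith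
          · have := Int.lt_floor_add_one (t / T)
            rw [div_lt_iff₀ hT] at this
            linarith
          · exact (he _ _).2 ⟨-⌊t / T⌋, by push_cast; ring⟩
        · rintro ⟨t, -, rfl⟩
          exact ⟨t, rfl⟩
      rw [h1]
      exact isCompact_Icc.image hec
    have hC0c : IsClosed C0 := by
      rw [hC0]
      exact isClosed_biUnion_finset fun i _ => (hCc.image (hFc i)).isClosed
    have hdisj : Disjoint C0 C := by
      rw [hC0, Set.disjoint_left]
      intro y hy1 hy2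
      simp only [mem_iUnion, Finset.mem_Ico] at hy1
      obtain ⟨i, ⟨hi1, hi2⟩, hy⟩ := hy1
      exact Set.disjoint_left.1 (hdis i hi1 hi2) hy hy2
    obtain ⟨f, hf0, hf1, -⟩ := exists_contMDiffMap_zero_one_of_isClosed (n := ⊤) (𝓡 n) hC0c
      hCc.isClosed hdisj
    have hρ : ContMDiff (𝓡 n) 𝓘(ℝ, ℝ) ∞ (f : N → ℝ) := f.contMDiff
    obtain ⟨U, hU, hFU, hconj⟩ := id hF
    obtain ⟨κ, hκ, hpert⟩ := perturb hr F hψ hρ x U hU hFU
    obtain ⟨ε, hε, q, hq, p, s₁, hs₁, hsemi⟩ := semistable hT hgc hmon hgT hno hrec1 hκ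
    obtain ⟨G, hGU, hG⟩ := hpert ε hε
    -- the first return of `G`
    have h1 : ∀ (s : ℝ) (i : ℕ), 1 ≤ i → i ≤ m → G^[i] (ψ s x₀) = F^[i] (ψ (s + ε) x₀) := by
      intro s i hi
      induction i with
      | zero => omega
      | succ i ih =>
        intro him
        rcases Nat.eq_zero_or_pos i with h0 | h0
        · subst h0
          have h2 : f (ψ s x₀) = 1 := hf1 (heC s)
          show G (ψ s x₀) = F (ψ (s + ε) x₀)
          rw [hG, h2, one_mul, ← hψ.add, add_comm]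
        · rw [Function.iterate_succ_apply', ih h0 (by omega), hG,
            Function.iterate_succ_apply' F]
          have h2 : f (F^[i] (ψ (s + ε) x₀)) = 0 := hf0 (by
            rw [hC0]
            simp only [mem_iUnion, Finset.mem_Ico]
            exact ⟨i, ⟨h0, by omega⟩, _, heC _, rfl⟩)
          rw [h2, zero_mul, hψ.zero]
    have h2 : ∀ s : ℝ, G^[m] (ψ s x₀) = ψ (sh g ε s) x₀ := by
      intro s
      rw [h1 s m hm le_rfl, hg]
      rfl
    have h3 : ∀ (l : ℕ) (s : ℝ), G^[m * l] (ψ s x₀) = ψ ((sh g ε)^[l] s) x₀ := by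
      intro l
      induction l with
      | zero => intro s; rfl
      | succ l ih =>
        intro s
        rw [Nat.mul_succ, Function.iterate_add_apply, h2, ih, Function.iterate_succ_apply]
    have hGs : OmegaStable n N r G :=
      ⟨U, hU, hGU, fun G' hG' => omegaConj_trans
        (omegaConj_symm F.continuous (hconj G hGU)) (hconj G' hG')⟩
    have hφc : Continuous fun s => (sh g ε)^[q] s - p * T :=
      ((sh_cont hgc q).comp (Continuous.prodMk_right ε)).sub continuous_const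
    have hGφ : ∀ s, G^[m * q] (ψ s x₀) = ψ ((sh g ε)^[q] s - p * T) x₀ := by
      intro s
      rw [h3]
      exact (he _ _).2 ⟨p, by ring⟩
    have hmq : 1 ≤ m * q := Nat.mul_pos hm hq
    refine not_hyp hψ G hn hmq hφc hGφ (s₁ := s₁) (by rw [hs₁]; ring) ?_
      (Pool.Agent.Y504.CO.Gen.stable_hyp hr hGs _ ⟨m * q, hmq, ?_⟩)
    · rcases hsemi with h | h
      · exact Or.inl fun s => by linarith [h s]
      · exact Or.inr fun s => by linarith [h s]
    · rw [hGφ, hs₁]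
      congr 1
      ring
  · -- orientation reversing
    have hgk : ∀ (k : ℕ) (t : ℝ), g (t + k * T) = g t - k * T := by
      intro k
      induction k with
      | zero => intro t; simp
      | succ k ih =>
        intro t
        have e1 : t + ((k + 1 : ℕ) : ℝ) * T = (t + k * T) + T := by push_cast; ring
        rw [e1, hgT, ih]
        push_cast
        ring
    have hgk' : ∀ (k : ℕ) (t : ℝ), g (t - k * T) = g t + k * T := by
      intro k t
      have := hgk k (t - k * T)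
      rw [sub_add_cancel] at this
      linarith
    obtain ⟨t₂, ht₂⟩ : ∃ t₂, g t₂ = t₂ := by
      obtain ⟨k, hk⟩ := exists_nat_gt (|g 0| / T)
      rw [div_lt_iff₀ hT] at hk
      have hk1 := (abs_lt.1 hk).1
      have hk2 := (abs_lt.1 hk).2
      have h4 : g (0 + k * T) - (0 + k * T) ≤ 0 := by
        rw [hgk]
        linarith
      have h5 : 0 ≤ g (0 - k * T) - (0 - k * T) := by
        rw [hgk']
        linarith
      obtain ⟨z, hz⟩ := mem_range_of_exists_le_of_exists_ge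
        (f := fun t => g t - t) (c := 0) (hgc.sub continuous_id) ⟨_, h4⟩ ⟨_, h5⟩
      exact ⟨z, by simp only at hz; linarith⟩
    have hmon2 : StrictMono (g^[2]) := fun s t hst => hanti (hanti hst)
    have hgT2 : ∀ t, g^[2] (t + T) = g^[2] t + T := by
      intro t
      show g (g (t + T)) = g (g t) + T
      rw [hgT]
      have := hgk' 1 (g t)
      push_cast at this
      rw [one_mul] at this
      exact this
    have h6 : (g^[2])^[1] t₂ = t₂ + ((0 : ℤ) : ℝ) * T := by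
      show g (g t₂) = _
      rw [ht₂, ht₂]
      simp
    have h7 := per_of_per hT hmon2 hgT2 h6 (t₀ := t₀) (fun η hη => by
      obtain ⟨j, hj, k, hk⟩ := hret 2 (by norm_num) η hη
      refine ⟨j, hj, k, ?_⟩
      rw [one_mul, ← Function.iterate_mul]
      exact hk)
    exact hperx 2 0 (by norm_num) h7

end Pool.Agent.X183.PC
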