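import Pool.Agent.H66.L.T64922ed1.X183.PC.Main
import Pool.Agent.H66.L.S8.Y318.MN.Main

/-!
# `Ω`-stable diffeomorphisms and periodic closed curves: consequences
-/

set_option autoImplicit false
set_option linter.unusedSectionVars false

open scoped Manifold ContDiff Topology
open Filter Set Metric

universe u

namespace Pool.Agent.X183.PC

open Pool.Agent.H718R2.G Pool.Agent.TH290.CL Pool.Agent.TH80.CLX Pool.Agent.TH80.OMS
open Pool.Agent.Y504.CO (Rec IsHyperbolicPer)
open Pool.Agent.Y318.MN (CritInv IsCrit)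

variable {n : ℕ} {N : Type u} [TopologicalSpace N] [T2Space N] [CompactSpace N]
  [ChartedSpace (V n) N] [IsManifold (𝓡 n) ∞ N]

/-- the points on periodic smooth closed curves of `F` -/
def CurvePts (n : ℕ) {N : Type u} [TopologicalSpace N] [ChartedSpace (V n) N] (F : N → N) :
    Set N :=
  {x | ∃ C : Set N, IsClosedCurve n N C ∧ IsPerSet F C ∧ x ∈ C}

/-- `G` does not decrease some smooth function `h`, and all recurrent points of `G` whose whole
orbit consists of critical points of `h`, with at most countably many exceptions, are periodic or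
lie on periodic smooth closed curves. -/
def CurveRec (n : ℕ) (N : Type u) [TopologicalSpace N] [ChartedSpace (V n) N] (r : ℕ∞)
    (G : DiffM n N r) : Prop :=
  ∃ h : N → ℝ, ContMDiff (𝓡 n) 𝓘(ℝ, ℝ) ∞ h ∧ (∀ x, h x ≤ h (G x)) ∧
    ((CritInv n G h ∩ Rec G) \ (Per G ∪ CurvePts n G)).Countable

theorem curve_countable {r : ℕ∞} (hr : 1 ≤ r) {F : DiffM n N r} (hF : OmegaStable n N r F)
    {S : Set N} (h : ((S ∩ Rec F) \ (Per F ∪ CurvePts n F)).Countable) :
    ((S ∩ Rec F) \ Per F).Countable := by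
  refine h.mono ?_
  rintro x ⟨hx, hxp⟩
  refine ⟨hx, ?_⟩
  rintro (h1 | ⟨C, hC, hP, hxC⟩)
  · exact hxp h1
  · exact hxp (curve_main hr hF hC hP hxC hx.2)

/-- **Limits of diffeomorphisms whose recurrence is carried by closed curves.** -/
theorem limit_main {r : ℕ∞} (hr : 1 ≤ r) {F : DiffM n N r} (hF : OmegaStable n N r F)
    (hcl : ∀ U : Set (DiffM n N r), IsOpen[strongTop n N r] U → F ∈ U →
      ∃ G ∈ U, CurveRec n N r G) :
    FiniteNoCycle F ∧ ∀ p ∈ Omega F, IsHyperbolicPer n F p := by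
  obtain ⟨U, hU, hFU, hconj⟩ := id hF
  obtain ⟨G, hGU, h, hh, hm, hR⟩ := hcl U hU hFU
  have hGF : OmegaConj G F := omegaConj_symm F.continuous (hconj G hGU)
  have hGs : OmegaStable n N r G :=
    ⟨U, hU, hGU, fun G' hG' => omegaConj_trans hGF (hconj G' hG')⟩
  obtain ⟨-, h2, -⟩ := Pool.Agent.Y318.MN.stable_main hr hGs hh hm (curve_countable hr hGs hR)
  have hRG : Rec G ⊆ Per G := fun x hx => (h2 x (Pool.Agent.Y504.CO.rec_sub_omega hx)).1.1
  have hRF : Rec F ⊆ Per F := Pool.Agent.Y504.CO.rec_conj G.continuous F.continuous hGF hRG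
  refine Pool.Agent.Y504.CO.Gen.stable hr hF ?_
  rw [sdiff_eq_empty.2 hRF]
  exact countable_empty

/-- `x` is recurrent for the flow in positive or in negative time. -/
def FlowRec {N : Type*} [TopologicalSpace N] (ψ : ℝ → N → N) (x : N) : Prop :=
  (∀ W ∈ 𝓝 x, ∀ R : ℝ, ∃ s, R ≤ s ∧ ψ s x ∈ W) ∨ ∀ W ∈ 𝓝 x, ∀ R : ℝ, ∃ s, s ≤ R ∧ ψ s x ∈ W

/-- Recurrence of maps which preserve the orbits of a flow. -/
theorem orbit_rec {ψ : ℝ → N → N} (hψ : IsFlow n N ψ) {F : N → N}
    (hFi : Function.Injective F) {τ : N → ℝ} (hτ : Continuous τ) (hF : ∀ x, F x = ψ (τ x) x)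
    {x : N} (hx : x ∈ Rec F) (hper : FlowRec ψ x → ∃ T : ℝ, 0 < T ∧ ψ T x = x) :
    F x = x ∨ ∃ T : ℝ, 0 < T ∧ ψ T x = x := by
  by_contra hcon
  push Not at hcon
  obtain ⟨hFx, hnp⟩ := hcon
  have hinj : ∀ s t, ψ s x = ψ t x → s = t := by
    have key : ∀ s t, s < t → ψ s x ≠ ψ t x := by
      intro s t hst h
      apply hnp (t - s) (by linarith)
      have h1 : ψ (t - s) x = ψ (-s) (ψ t x) := by rw [← hψ.add]; congr 1; ring
      rw [h1, ← h, ← hψ.add, neg_add_cancel, hψ.zero]
    intro s t h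
    rcases lt_trichotomy s t with h1 | h1 | h1
    · exact absurd h (key s t h1)
    · exact h1
    · exact absurd h.symm (key t s h1)
  have hoc := orb_cont hψ x
  set f : ℝ → ℝ := fun t => t + τ (ψ t x) with hf
  have hfc : Continuous f := continuous_id.add (hτ.comp hoc)
  have hFf : ∀ t, F (ψ t x) = ψ (f t) x := fun t => by
    rw [hF, ← hψ.add, add_comm]
  have hfi : Function.Injective f := by
    intro s t hst
    apply hinj
    apply hFi
    rw [hFf, hFf, hst]
  obtain ⟨B, hB⟩ : ∃ B : ℝ, ∀ y, |τ y| ≤ B := by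
    obtain ⟨B, hB⟩ := (isCompact_univ.image hτ).isBounded.exists_norm_le
    exact ⟨B, fun y => hB _ ⟨y, mem_univ _, rfl⟩⟩
  have hB0 : 0 ≤ B := (abs_nonneg _).trans (hB x)
  have hmono : StrictMono f := by
    rcases hfc.strictMono_of_inj hfi with h | h
    · exact h
    · exfalso
      have h1 := h (by linarith : (0 : ℝ) < 2 * B + 1)
      have h2 := abs_le.1 (hB (ψ 0 x))
      have h3 := abs_le.1 (hB (ψ (2 * B + 1) x))
      simp only [hf] at h1
      linarith [h2.2, h3.1]
  have hFk : ∀ k : ℕ, F^[k] x = ψ (f^[k] 0) x := by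
    intro k
    induction k with
    | zero =>
      show x = ψ 0 x
      rw [hψ.zero]
    | succ k ih => rw [Function.iterate_succ_apply', ih, hFf, Function.iterate_succ_apply']
  have hf0 : f 0 ≠ 0 := fun h => hFx (by
    have := hFk 1
    rw [Function.iterate_one, Function.iterate_one, h, hψ.zero] at this
    exact this)
  -- points of the orbit in a compact interval of times which does not contain zero
  have havoid : ∀ a b : ℝ, 0 ∉ Icc a b → ((fun s => ψ s x) '' Icc a b)ᶜ ∈ 𝓝 x := by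
    intro a b hab
    refine (isCompact_Icc.image hoc).isClosed.isOpen_compl.mem_nhds ?_
    rintro ⟨s, hs, hsx⟩
    have : s = 0 := hinj s 0 (by rw [hψ.zero]; exact hsx)
    rw [this] at hs
    exact hab hs
  have hrec : FlowRec ψ x := by
    rcases lt_or_gt_of_ne hf0 with h | h
    · right
      intro W hW R
      have h1 := havoid (min R (f 0)) (f 0) (fun h2 => by linarith [h2.2])
      obtain ⟨k, hk, hkW, hkK⟩ := hx _ (inter_mem hW h1)
      obtain ⟨j, rfl⟩ : ∃ j, k = j + 1 := ⟨k - 1, by omega⟩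
      have hle : f^[j + 1] 0 ≤ f 0 := by
        rw [Function.iterate_succ_apply']
        apply hmono.monotone
        clear hk hkW hkK
        induction j with
        | zero => exact le_rfl
        | succ j ih =>
          rw [Function.iterate_succ_apply']
          exact (hmono.monotone ih).trans h.le
      rw [hFk] at hkW hkK
      refine ⟨f^[j + 1] 0, ?_, hkW⟩
      by_contra hR
      push Not at hR
      exact hkK ⟨f^[j + 1] 0, ⟨(min_le_left _ _).trans hR.le, hle⟩, rfl⟩
    · left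
      intro W hW R
      have h1 := havoid (f 0) (max R (f 0)) (fun h2 => by linarith [h2.1])
      obtain ⟨k, hk, hkW, hkK⟩ := hx _ (inter_mem hW h1)
      obtain ⟨j, rfl⟩ : ∃ j, k = j + 1 := ⟨k - 1, by omega⟩
      have hle : f 0 ≤ f^[j + 1] 0 := by
        rw [Function.iterate_succ_apply']
        apply hmono.monotone
        clear hk hkW hkK
        induction j with
        | zero => exact le_rfl
        | succ j ih =>
          rw [Function.iterate_succ_apply']
          exact h.le.trans (hmono.monotone ih)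
      rw [hFk] at hkW hkK
      refine ⟨f^[j + 1] 0, ?_, hkW⟩
      by_contra hR
      push Not at hR
      exact hkK ⟨f^[j + 1] 0, ⟨hle, hR.le.trans (le_max_left _ _)⟩, rfl⟩
  obtain ⟨T, hT, hTx⟩ := hper hrec
  exact hnp T hT hTx

/-- `G` preserves every orbit of a smooth flow whose recurrent points are periodic. -/
def PreservesOrbits (n : ℕ) (N : Type u) [TopologicalSpace N] [ChartedSpace (V n) N]
    (G : N → N) : Prop :=
  ∃ ψ : ℝ → N → N, IsFlow n N ψ ∧ (∀ x, FlowRec ψ x → ∃ T : ℝ, 0 < T ∧ ψ T x = x) ∧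
    ∃ τ : N → ℝ, Continuous τ ∧ ∀ x, G x = ψ (τ x) x

theorem rec_of_preserves {G : N → N} (hGi : Function.Injective G) (h : PreservesOrbits n N G) :
    Rec G ⊆ Per G ∪ CurvePts n G := by
  obtain ⟨ψ, hψ, hrec, τ, hτ, hG⟩ := h
  intro x hx
  rcases orbit_rec hψ hGi hτ hG hx (hrec x) with h1 | ⟨T, hT, hTx⟩
  · exact Or.inl ⟨1, le_rfl, h1⟩
  · by_cases hc : ∀ t, ψ t x = x
    · exact Or.inl ⟨1, le_rfl, by
        show G x = x
        rw [hG, hc]⟩
    · push Not at hc
      refine Or.inr ⟨range fun t => ψ t x, ⟨ψ, hψ, x, ⟨T, hT, hTx⟩, hc, rfl⟩,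
        ⟨1, le_rfl, ?_, fun i h1 h2 => by omega⟩, ⟨0, hψ.zero x⟩⟩
      rintro _ ⟨t, rfl⟩
      refine ⟨τ (ψ t x) + t, ?_⟩
      show ψ (τ (ψ t x) + t) x = G (ψ t x)
      rw [hψ.add, hG]

theorem curveRec_of_preserves {r : ℕ∞} {G : DiffM n N r} (h : PreservesOrbits n N G) :
    CurveRec n N r G := by
  refine ⟨fun _ => 0, contMDiff_const, fun _ => le_rfl, ?_⟩
  have : (CritInv n G (fun _ => 0) ∩ Rec G) \ (Per G ∪ CurvePts n G) = ∅ := by
    rw [sdiff_eq_empty]
    exact fun x hx => rec_of_preserves G.injective h hx.2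
  rw [this]
  exact countable_empty

end Pool.Agent.X183.PC
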